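import Mathlib

/-!
The combinatorial step: exactly one hit.
-/

set_option autoImplicit false

namespace Pool.Agent.R529.FT

open Finset

/-- if `E` has exactly one element in `T` and this element is in `S`, the point is good -/
theorem one_hit {S T : Finset ℕ} (hST : S ⊆ T) (E : ℕ → Prop) [DecidablePred E] (G : Prop)
    [Decidable G] (hG : ∀ h ∈ S, E h → (∀ h' ∈ T, h' ≠ h → ¬ E h') → G) :
    (∑ h ∈ S, if E h then (1 : ℝ) else 0) -
      ∑ h ∈ S, ∑ h' ∈ T.filter (fun h' => h' ≠ h), (if E h ∧ E h' then (1 : ℝ) else 0) ≤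
      if G then 1 else 0 := by
  obtain ⟨b, hb⟩ : ∃ b : ℕ, b = (T.filter E).card := ⟨_, rfl⟩
  have h0 : (0 : ℝ) ≤ if G then 1 else 0 := by split_ifs <;> norm_num
  have h1 : ∀ h ∈ S, ∑ h' ∈ T.filter (fun h' => h' ≠ h), (if E h ∧ E h' then (1 : ℝ) else 0) =
      if E h then (b : ℝ) - 1 else 0 := by
    intro h hh
    by_cases hE : E h
    · simp only [hE, true_and, if_true]
      rw [← sum_filter, sum_const, nsmul_eq_mul, mul_one, filter_filter]
      have h2 : T.filter (fun a => a ≠ h ∧ E a) = (T.filter E).erase h := by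
        ext a
        simp only [mem_filter, mem_erase]
        tauto
      have h3 : h ∈ T.filter E := mem_filter.2 ⟨hST hh, hE⟩
      have h4 := card_erase_add_one h3
      rw [h2, hb]
      have h5 : (((T.filter E).erase h).card : ℝ) + 1 = ((T.filter E).card : ℝ) := by exact_mod_cast h4
      linarith
    · simp [hE]
  rw [sum_congr rfl h1, ← sum_sub_distrib]
  have h2 : ∀ h ∈ S, ((if E h then (1 : ℝ) else 0) - if E h then (b : ℝ) - 1 else 0) =
      if E h then 2 - (b : ℝ) else 0 := by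
    intro h _
    split_ifs <;> ring
  rw [sum_congr rfl h2]
  rcases Nat.lt_or_ge b 2 with hb2 | hb2
  · by_cases hex : ∃ h ∈ S, E h
    · obtain ⟨h, hh, hE⟩ := hex
      have h3 : h ∈ T.filter E := mem_filter.2 ⟨hST hh, hE⟩
      have hb1 : (T.filter E).card = 1 := by
        have : 0 < (T.filter E).card := card_pos.2 ⟨h, h3⟩
        omega
      obtain ⟨a, ha⟩ := card_eq_one.1 hb1
      have hah : a = h := by
        rw [ha, mem_singleton] at h3
        exact h3.symm
      have hGt : G := hG h hh hE fun h' hh' hne hE' => by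
        have h4 : h' ∈ T.filter E := mem_filter.2 ⟨hh', hE'⟩
        rw [ha, mem_singleton] at h4
        exact hne (h4.trans hah)
      rw [if_pos hGt, ← sum_filter, sum_const, nsmul_eq_mul]
      have h5 : S.filter E ⊆ T.filter E := filter_subset_filter _ hST
      have h6 := card_le_card h5
      rw [hb1] at h6
      have h7 : ((S.filter E).card : ℝ) ≤ 1 := by exact_mod_cast h6
      have h8 : (b : ℝ) = 1 := by rw [hb, hb1]; norm_num
      rw [h8]
      linarith
    · push Not at hex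
      rw [sum_eq_zero fun h hh => if_neg (hex h hh)]
      exact h0
  · refine le_trans (sum_nonpos fun h _ => ?_) h0
    have h3 : (2 : ℝ) ≤ b := by exact_mod_cast hb2
    split_ifs
    · linarith
    · exact le_rfl

open Classical in
/-- the weighted form -/
theorem weighted {S T M : Finset ℕ} (hST : S ⊆ T) (E : ℕ → ℕ → Prop) (G : ℕ → Prop)
    (hG : ∀ m ∈ M, ∀ h ∈ S, E m h → (∀ h' ∈ T, h' ≠ h → ¬ E m h') → G m) {f g : ℝ}
    (hf : ∀ h ∈ S, f ≤ ∑ m ∈ M.filter (fun m => E m h), 1 / (m : ℝ))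
    (hg : ∀ h ∈ S, ∀ h' ∈ T, h' ≠ h → ∑ m ∈ M.filter (fun m => E m h ∧ E m h'), 1 / (m : ℝ) ≤ g)
    (hg0 : 0 ≤ g) :
    S.card * (f - T.card * g) ≤ ∑ m ∈ M.filter G, 1 / (m : ℝ) := by
  have h1 : ∀ m ∈ M, (1 / (m : ℝ)) * ((∑ h ∈ S, if E m h then (1 : ℝ) else 0) -
      ∑ h ∈ S, ∑ h' ∈ T.filter (fun h' => h' ≠ h), (if E m h ∧ E m h' then (1 : ℝ) else 0)) ≤
      (1 / (m : ℝ)) * if G m then 1 else 0 := fun m hm =>
    mul_le_mul_of_nonneg_left (one_hit hST (E m) (G m) (hG m hm)) (by positivity)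
  have h2 := sum_le_sum h1
  have h3 : ∑ m ∈ M, (1 / (m : ℝ)) * (if G m then (1 : ℝ) else 0) = ∑ m ∈ M.filter G, 1 / (m : ℝ) := by
    rw [sum_filter]
    refine sum_congr rfl fun m _ => ?_
    split_ifs <;> ring
  rw [h3] at h2
  refine le_trans ?_ h2
  have h4 : ∑ m ∈ M, (1 / (m : ℝ)) * ((∑ h ∈ S, if E m h then (1 : ℝ) else 0) -
      ∑ h ∈ S, ∑ h' ∈ T.filter (fun h' => h' ≠ h), (if E m h ∧ E m h' then (1 : ℝ) else 0)) =
      ∑ h ∈ S, ∑ m ∈ M.filter (fun m => E m h), 1 / (m : ℝ) -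
      ∑ h ∈ S, ∑ h' ∈ T.filter (fun h' => h' ≠ h),
        ∑ m ∈ M.filter (fun m => E m h ∧ E m h'), 1 / (m : ℝ) := by
    simp only [mul_sub, mul_sum, sum_sub_distrib, mul_ite, mul_one, mul_zero]
    congr 1
    · rw [sum_comm]
      refine sum_congr rfl fun h _ => ?_
      rw [sum_filter]
    · rw [sum_comm]
      refine sum_congr rfl fun h _ => ?_
      rw [sum_comm]
      refine sum_congr rfl fun h' _ => ?_
      rw [sum_filter]
  rw [h4]
  have h5 : S.card * f ≤ ∑ h ∈ S, ∑ m ∈ M.filter (fun m => E m h), 1 / (m : ℝ) := by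
    rw [← nsmul_eq_mul]
    exact card_nsmul_le_sum _ _ _ hf
  have h6 : ∑ h ∈ S, ∑ h' ∈ T.filter (fun h' => h' ≠ h),
      ∑ m ∈ M.filter (fun m => E m h ∧ E m h'), 1 / (m : ℝ) ≤ S.card * (T.card * g) := by
    refine (sum_le_card_nsmul _ _ (T.card * g) fun h hh => ?_).trans (by rw [nsmul_eq_mul])
    refine (sum_le_card_nsmul _ _ g fun h' hh' => ?_).trans ?_
    · rw [mem_filter] at hh'
      exact hg h hh h' hh'.1 hh'.2
    · rw [nsmul_eq_mul]
      refine mul_le_mul_of_nonneg_right ?_ hg0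
      exact_mod_cast card_filter_le _ _
  rw [mul_sub]
  linarith

end Pool.Agent.R529.FT
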