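import Pool.Agent.R529.FT.Pair

/-!
The integers `h ≤ H` which are free of the primes `≤ y`, one prime excepted.
-/

set_option autoImplicit false

namespace Pool.Agent.R529.FT

open Finset Filter
open Pool.Agent.Y835.SC (V V_pos V_le_one V_anti)

theorem ex_w (E w0 : ℕ) (hE : 1 ≤ E) : ∃ Y1 : ℕ, 2 ≤ Y1 ∧ ∀ y : ℕ, Y1 ≤ y → ∃ w : ℕ, w0 ≤ w ∧
    w ^ E ≤ y ∧ Real.log y / (2 * E) ≤ Real.log w := by
  have hE0 : (0 : ℝ) < E := by exact_mod_cast hE
  have h1 : ∀ᶠ y : ℕ in atTop, (max (w0 : ℝ) 1) + 1 ≤ (y : ℝ) ^ (1 / (E : ℝ)) :=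
    ((tendsto_rpow_atTop (by positivity)).comp tendsto_natCast_atTop_atTop).eventually_ge_atTop _
  have h2 : ∀ᶠ y : ℕ in atTop, 2 * (E : ℝ) * Real.log 2 ≤ Real.log y :=
    (Real.tendsto_log_atTop.comp tendsto_natCast_atTop_atTop).eventually_ge_atTop _
  obtain ⟨Y1, hY⟩ := eventually_atTop.1 (h1.and h2)
  refine ⟨max Y1 2, le_max_right _ _, fun y hy => ?_⟩
  obtain ⟨h3, h4⟩ := hY y ((le_max_left _ _).trans hy)
  have hy0 : (0 : ℝ) < y := by
    exact_mod_cast (by have := (le_max_right Y1 2).trans hy; omega : 0 < y)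
  obtain ⟨r, hr⟩ : ∃ r : ℝ, r = (y : ℝ) ^ (1 / (E : ℝ)) := ⟨_, rfl⟩
  rw [← hr] at h3
  have hr2 : 2 ≤ r := by
    have := le_max_right (w0 : ℝ) 1
    linarith
  have hf := Nat.lt_floor_add_one r
  have hw : (w0 : ℝ) ≤ ⌊r⌋₊ := by
    have := le_max_left (w0 : ℝ) 1
    linarith
  refine ⟨⌊r⌋₊, by exact_mod_cast hw, ?_, ?_⟩
  · have h5 : ((⌊r⌋₊ : ℝ)) ^ E ≤ y := by
      calc ((⌊r⌋₊ : ℝ)) ^ E ≤ r ^ E := pow_le_pow_left₀ (Nat.cast_nonneg _)
            (Nat.floor_le (by linarith)) E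
        _ = y := by
            rw [hr, ← Real.rpow_natCast, ← Real.rpow_mul hy0.le, one_div,
              inv_mul_cancel₀ hE0.ne', Real.rpow_one]
    exact_mod_cast h5
  · have h5 : r / 2 ≤ ⌊r⌋₊ := by linarith
    have h6 : Real.log (r / 2) ≤ Real.log ⌊r⌋₊ := Real.log_le_log (by linarith) h5
    have h7 : Real.log r = Real.log y / E := by
      rw [hr, Real.log_rpow hy0]; ring
    rw [Real.log_div (by linarith) (by norm_num), h7] at h6
    have h8 : Real.log 2 ≤ Real.log y / (2 * E) := by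
      rw [le_div_iff₀ (by positivity)]; linarith
    have h9 : Real.log y / E = Real.log y / (2 * E) + Real.log y / (2 * E) := by
      field_simp
      ring
    linarith

open Classical in
theorem single_sieve : ∃ C : ℝ, 0 < C ∧ ∀ y H p₀ : ℕ, 2 ≤ y → y ≤ H → p₀.Prime →
    (((Icc 1 H).filter (fun h => ∀ p : ℕ, p.Prime → p ≤ y → p ≠ p₀ → ¬ p ∣ h)).card : ℝ) ≤
      C * (H / Real.log y) := by
  obtain ⟨C0, K0, hC0, hK0, HF⟩ := Pool.Agent.TH892.SW.fl_set 1
  obtain ⟨C, hC, HV⟩ := V_up0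
  obtain ⟨E, hE⟩ : ∃ E : ℕ, E = 4 * (C0 * C0) + 6 := ⟨_, rfl⟩
  obtain ⟨Y1, hY1, HW⟩ := ex_w E (max K0 5) (by omega)
  have hE0 : (0 : ℝ) < E := by exact_mod_cast (by omega : 0 < E)
  refine ⟨(2 * C + 1) * (2 * E) + Real.log Y1 + 1, by
    have := Real.log_natCast_nonneg Y1
    positivity, fun y H p₀ hy hyH hp₀ => ?_⟩
  have hly : 0 < Real.log y := Real.log_pos (by exact_mod_cast (by omega : 1 < y))
  have hlY : 0 ≤ Real.log Y1 := Real.log_natCast_nonneg _
  have hH : (0 : ℝ) ≤ H := Nat.cast_nonneg H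
  rcases lt_or_ge y Y1 with hc | hc
  · have h1 : (((Icc 1 H).filter (fun h => ∀ p : ℕ, p.Prime → p ≤ y → p ≠ p₀ → ¬ p ∣ h)).card : ℝ) ≤
        H := by
      have h2 := card_filter_le (Icc 1 H) (fun h => ∀ p : ℕ, p.Prime → p ≤ y → p ≠ p₀ → ¬ p ∣ h)
      rw [Nat.card_Icc, Nat.add_sub_cancel] at h2
      exact_mod_cast h2
    refine h1.trans ?_
    have h3 : Real.log y ≤ Real.log Y1 :=
      Real.log_le_log (by exact_mod_cast (by omega : 0 < y)) (by exact_mod_cast hc.le)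
    calc (H : ℝ) = Real.log y * (H / Real.log y) := by field_simp
      _ ≤ _ := by
        refine mul_le_mul_of_nonneg_right ?_ (by positivity)
        have : 0 < (2 * C + 1) * (2 * E) := by positivity
        linarith
  · obtain ⟨w, hw0, hwE, hlw⟩ := HW y hc
    have hwK : K0 ≤ w := (le_max_left _ _).trans hw0
    have hw5 : 5 ≤ w := (le_max_right _ _).trans hw0
    have hw5' : (5 : ℝ) ≤ w := by exact_mod_cast hw5
    have hlw0 : 0 < Real.log w := Real.log_pos (by linarith)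
    have hwy : w ≤ y := (Nat.le_self_pow (by omega) w).trans hwE
    obtain ⟨R, hR⟩ : ∃ R : ℕ → ℕ → Prop, ∀ p a, R p a ↔ p ∣ a := ⟨_, fun _ _ => Iff.rfl⟩
    obtain ⟨Q, hQ⟩ : ∃ Q : Finset ℕ, Q = (Ioc 2 w).filter (fun p => p.Prime ∧ ¬ p ∣ p₀) := ⟨_, rfl⟩
    have hQp : ∀ p ∈ Q, p.Prime ∧ p ≤ w ∧ p ≠ p₀ := fun p hp => by
      rw [hQ, mem_filter, mem_Ioc] at hp
      refine ⟨hp.2.1, hp.1.2, ?_⟩
      rintro rfl
      exact hp.2.2 dvd_rfl
    have hcard : ∀ p ∈ Q, ((range p).filter (fun a => R p a)).card = 1 := by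
      intro p hp
      rw [card_eq_one]
      refine ⟨0, ?_⟩
      ext a
      rw [mem_filter, mem_range, mem_singleton, hR]
      constructor
      · rintro ⟨h1, h2⟩
        exact Nat.eq_zero_of_dvd_of_lt h2 h1
      · rintro rfl
        exact ⟨(hQp p hp).1.pos, dvd_zero _⟩
    have h1 := HF C0 le_rfl w (by omega) H Q R (fun p hp => ⟨(hQp p hp).1, (hQp p hp).2.1, (hcard p hp).le⟩)
    have h2 := (abs_le.1 h1).2
    have h3 := err_le C0 C0 K0 w 2 H hwK hw5 le_rfl (by rw [← hE]; exact hwE.trans hyH) (by omega)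
    have h4 : ∏ p ∈ Q, (1 - (((range p).filter (fun a => R p a)).card : ℝ) / p) = V Q := by
      unfold V
      refine prod_congr rfl fun p hp => ?_
      rw [hcard p hp, Nat.cast_one]
    rw [h4] at h2
    have h5 : V Q ≤ C * (Real.log (2 : ℕ) / Real.log w) := by
      rw [hQ]
      refine HV 2 w le_rfl (by omega) p₀ hp₀.one_lt.le ?_
      rw [hp₀.primeFactors]
      have h6 : ∑ p ∈ ({p₀} : Finset ℕ).filter (fun p => 2 < p), (1 : ℝ) / p ≤
          ∑ p ∈ ({p₀} : Finset ℕ), (1 : ℝ) / p :=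
        sum_le_sum_of_subset_of_nonneg (filter_subset _ _) fun _ _ _ => by positivity
      refine h6.trans ?_
      rw [sum_singleton, div_le_one (by exact_mod_cast hp₀.pos)]
      exact_mod_cast hp₀.one_lt.le
    have hV0 : 0 < V Q := V_pos fun p hp => (hQp p hp).1
    have hl2 : Real.log (2 : ℕ) ≤ 1 := by
      have := Real.log_two_lt_d9
      push_cast
      linarith
    have hl20 : 0 ≤ Real.log (2 : ℕ) := Real.log_natCast_nonneg 2
    have h6 : V Q ≤ C * (1 / Real.log w) := h5.trans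
      (mul_le_mul_of_nonneg_left (div_le_div_of_nonneg_right hl2 hlw0.le) hC.le)
    have h7 : (Real.log (2 : ℕ) / Real.log w) ^ 2 ≤ 1 / Real.log w := by
      have h8 : 1 ≤ Real.log w := by
        rw [Real.le_log_iff_exp_le (by linarith)]
        have := Real.exp_one_lt_d9
        linarith
      have h9 : Real.log (2 : ℕ) / Real.log w ≤ 1 / Real.log w :=
        div_le_div_of_nonneg_right hl2 hlw0.le
      have h10 : 1 / Real.log w ≤ 1 := by
        rw [div_le_one hlw0]; exact h8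
      have h11 : 0 ≤ Real.log (2 : ℕ) / Real.log w := by positivity
      nlinarith
    have h8 : (1 / 2 : ℝ) ^ C0 ≤ 1 := pow_le_one₀ (by norm_num) (by norm_num)
    have h9 : (((Icc 1 H).filter (fun h => ∀ p : ℕ, p.Prime → p ≤ y → p ≠ p₀ → ¬ p ∣ h)).card : ℝ) ≤
        (((Icc 1 H).filter (fun n => ∀ p ∈ Q, ¬ R p (n % p))).card : ℝ) := by
      refine Nat.cast_le.2 (card_le_card fun m hm => ?_)
      rw [mem_filter] at hm ⊢
      refine ⟨hm.1, fun p hp hc => ?_⟩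
      rw [hR] at hc
      have h10 : p ∣ m := (Nat.dvd_mod_iff dvd_rfl).1 hc
      exact hm.2 p (hQp p hp).1 ((hQp p hp).2.1.trans hwy) (hQp p hp).2.2 h10
    have h10 : (1 / 2 : ℝ) ^ C0 * (H * V Q) ≤ 1 * (H * V Q) :=
      mul_le_mul_of_nonneg_right h8 (by positivity)
    have h11 : (H : ℝ) * V Q ≤ H * (C * (1 / Real.log w)) := mul_le_mul_of_nonneg_left h6 hH
    have h12 : (H : ℝ) * (Real.log (2 : ℕ) / Real.log w) ^ 2 ≤ H * (1 / Real.log w) :=
      mul_le_mul_of_nonneg_left h7 hH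
    have h13 : 1 / Real.log w ≤ 2 * E * (1 / Real.log y) := by
      rw [mul_one_div, div_le_div_iff₀ hlw0 hly, one_mul]
      rw [div_le_iff₀ (by positivity)] at hlw
      linarith
    have h14 : (2 * C + 1) * ((H : ℝ) * (1 / Real.log w)) ≤
        (2 * C + 1) * ((H : ℝ) * (2 * E * (1 / Real.log y))) :=
      mul_le_mul_of_nonneg_left (mul_le_mul_of_nonneg_left h13 hH) (by positivity)
    calc _ ≤ _ := h9
      _ ≤ 2 * (H * V Q) + H * (Real.log (2 : ℕ) / Real.log w) ^ 2 := by linarith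
      _ ≤ (2 * C + 1) * ((H : ℝ) * (1 / Real.log w)) := by linarith
      _ ≤ (2 * C + 1) * ((H : ℝ) * (2 * E * (1 / Real.log y))) := h14
      _ = (2 * C + 1) * (2 * E) * (H / Real.log y) := by ring
      _ ≤ _ := by
        refine mul_le_mul_of_nonneg_right ?_ (by positivity)
        linarith

end Pool.Agent.R529.FT
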