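import Mathlib

/-!
Elementary facts on the exceptional modulus.
-/

set_option autoImplicit false

namespace Pool.Agent.R529.FT

open Finset

theorem pow_log_lt (B : ℕ) : ∀ᶠ x : ℝ in Filter.atTop, Real.log x ^ B < x + 2 := by
  have h := (Real.isLittleO_pow_log_id_atTop (n := B)).bound (show (0 : ℝ) < 1 by norm_num)
  filter_upwards [h, Filter.eventually_gt_atTop (1 : ℝ)] with x h1 h2
  rw [one_mul, id, Real.norm_of_nonneg (pow_nonneg (Real.log_nonneg h2.le) B),
    Real.norm_of_nonneg (by linarith)] at h1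
  linarith

/-- a prime factor of the exceptional modulus -/
theorem exc_prime {q₁ : ℕ} (hq : 2 ≤ q₁) {L : ℝ} (hL : 1 ≤ L) (h : L ^ 2 < q₁) :
    ∃ p₀ : ℕ, p₀.Prime ∧ Real.log L ≤ p₀ ∧ ∀ P : ℕ, Squarefree P → ¬ p₀ ∣ P → ¬ q₁ ∣ P := by
  by_cases hs : Squarefree q₁
  · have hne : q₁.primeFactors.Nonempty := Nat.nonempty_primeFactors.2 (by omega)
    obtain ⟨p₀, hp₀, hmax⟩ := q₁.primeFactors.exists_max_image id hne
    have hp := Nat.prime_of_mem_primeFactors hp₀
    refine ⟨p₀, hp, ?_, fun P _ hP hd => hP ((Nat.dvd_of_mem_primeFactors hp₀).trans hd)⟩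
    have h1 : q₁ ≤ primorial p₀ := by
      rw [← Nat.prod_primeFactors_of_squarefree hs]
      unfold primorial
      refine Finset.prod_le_prod_of_subset_of_one_le' (fun p hp' => ?_) fun p hp' _ => ?_
      · rw [mem_filter, mem_range]
        have := hmax p hp'
        simp only [id] at this
        exact ⟨by omega, Nat.prime_of_mem_primeFactors hp'⟩
      · exact (mem_filter.1 hp').2.one_lt.le
    have h2 := h1.trans (primorial_le_four_pow p₀)
    have h3 : L ^ 2 < (4 : ℝ) ^ p₀ := h.trans_le (by exact_mod_cast h2)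
    have h4 := Real.log_lt_log (by positivity) h3
    rw [Real.log_pow, Real.log_pow] at h4
    have hl4 : Real.log 4 ≤ 1.3863 := by
      have := Real.log_two_lt_d9
      rw [show (4 : ℝ) = 2 ^ 2 by norm_num, Real.log_pow]
      push_cast
      linarith
    have h5 : (p₀ : ℝ) * Real.log 4 ≤ p₀ * 1.3863 := mul_le_mul_of_nonneg_left hl4 (Nat.cast_nonneg _)
    push_cast at h4
    have h6 : (0 : ℝ) ≤ p₀ := Nat.cast_nonneg _
    linarith
  · obtain ⟨p₀, hp₀, hpp⟩ := Nat.exists_infinite_primes ⌈Real.log L⌉₊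
    refine ⟨p₀, hpp, (Nat.le_ceil _).trans (by exact_mod_cast hp₀), fun P hP _ hd => ?_⟩
    exact hs (hP.squarefree_of_dvd hd)

end Pool.Agent.R529.FT
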