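import Mathlib

/-!
Sums of reciprocals over a set of small upper density.
-/

set_option autoImplicit false

namespace Pool.Agent.R529.FT

open Finset

theorem log_step (M : ℕ) (hM : 1 ≤ M) : 1 / ((M : ℝ) + 1) ≤ Real.log (M + 1) - Real.log M := by
  have hM0 : (0 : ℝ) < M := by exact_mod_cast hM
  have h1 := Real.log_le_sub_one_of_pos (x := (M : ℝ) / (M + 1)) (by positivity)
  rw [Real.log_div (by positivity) (by positivity)] at h1
  have h2 : (M : ℝ) / (M + 1) - 1 = -(1 / ((M : ℝ) + 1)) := by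
    field_simp
    ring
  linarith

theorem log_sum' (Q : ℕ → Prop) [DecidablePred Q] {M₁ : ℕ} {α : ℝ} (hM : 1 ≤ M₁)
    (h : ∀ X, M₁ ≤ X → (((Icc 1 X).filter Q).card : ℝ) ≤ α * X) (M₂ : ℕ) (hMM : M₁ ≤ M₂) :
    ∑ m ∈ (Ioc M₁ M₂).filter Q, 1 / (m : ℝ) ≤
      (((Icc 1 M₂).filter Q).card : ℝ) / M₂ + α * (Real.log M₂ - Real.log M₁) := by
  induction M₂, hMM using Nat.le_induction with
  | base =>
    rw [Ioc_self, filter_empty, sum_empty, sub_self, mul_zero, add_zero]
    positivity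
  | succ M hM₁ ih =>
    have hM0 : (0 : ℝ) < M := by exact_mod_cast (by omega : 0 < M)
    have h1 := log_step M (by omega)
    have h2 := h M hM₁
    have e1 : Ioc M₁ (M + 1) = insert (M + 1) (Ioc M₁ M) := by
      ext a
      simp only [mem_Ioc, mem_insert]
      omega
    have e2 : Icc 1 (M + 1) = insert (M + 1) (Icc 1 M) := by
      ext a
      simp only [mem_Icc, mem_insert]
      omega
    obtain ⟨N, hN⟩ : ∃ N : ℝ, N = (((Icc 1 M).filter Q).card : ℝ) := ⟨_, rfl⟩
    have hN0 : 0 ≤ N := by rw [hN]; positivity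
    rw [← hN] at h2 ih
    have h3 : N / M - N / ((M : ℝ) + 1) ≤ α * (Real.log (M + 1) - Real.log M) := by
      have h4 : N / M - N / ((M : ℝ) + 1) = (N / M) * (1 / ((M : ℝ) + 1)) := by
        field_simp
        ring
      rw [h4]
      have h5 : N / M ≤ α := by
        rw [div_le_iff₀ hM0]; exact h2
      exact mul_le_mul h5 h1 (by positivity) ((by positivity : 0 ≤ N / M).trans h5)
    by_cases hq : Q (M + 1)
    · rw [e1, e2, filter_insert, if_pos hq, filter_insert, if_pos hq, sum_insert (by simp),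
        card_insert_of_notMem (by simp)]
      push_cast
      rw [← hN, add_div]
      linarith
    · rw [e1, e2, filter_insert, if_neg hq, filter_insert, if_neg hq]
      push_cast
      rw [← hN]
      linarith

theorem log_sum (Q : ℕ → Prop) [DecidablePred Q] {M₁ : ℕ} {α : ℝ} (hM : 1 ≤ M₁)
    (h : ∀ X, M₁ ≤ X → (((Icc 1 X).filter Q).card : ℝ) ≤ α * X) (M₂ : ℕ) (hMM : M₁ ≤ M₂) :
    ∑ m ∈ (Ioc M₁ M₂).filter Q, 1 / (m : ℝ) ≤ α * (1 + Real.log M₂) := by
  have h1 := log_sum' Q hM h M₂ hMM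
  have h2 := h M₂ hMM
  have hM0 : (0 : ℝ) < M₂ := by exact_mod_cast (by omega : 0 < M₂)
  have h3 : (((Icc 1 M₂).filter Q).card : ℝ) / M₂ ≤ α := by
    rw [div_le_iff₀ hM0]; exact h2
  have h4 : 0 ≤ Real.log M₁ := Real.log_natCast_nonneg _
  have h5 : 0 ≤ α := (by positivity : 0 ≤ (((Icc 1 M₂).filter Q).card : ℝ) / M₂).trans h3
  nlinarith

end Pool.Agent.R529.FT
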