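import Pool.Agent.R529.FT.Page
import Pool.Agent.R529.FT.Count
import Pool.Agent.R529.FT.Part

/-!
The first moment.
-/

set_option autoImplicit false

namespace Pool.Agent.R529.FT

open Finset Filter
open Pool.Agent.Y835.SC (V V_pos V_le_one V_anti V_primeFactors)

/-- the product of the primes `≤ y`, the prime `p₀` excepted -/
def PP (y p₀ : ℕ) : ℕ := ∏ p ∈ (Icc 1 y).filter (fun p => p.Prime ∧ p ≠ p₀), p

theorem PP_pos (y p₀ : ℕ) : 0 < PP y p₀ := prod_pos fun _ hp => (mem_filter.1 hp).2.1.pos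

theorem PP_dvd {y p₀ p : ℕ} (hp : p.Prime) : p ∣ PP y p₀ ↔ p ≤ y ∧ p ≠ p₀ := by
  constructor
  · intro h
    obtain ⟨q, hq, hd⟩ := (Nat.Prime.prime hp).exists_mem_finset_dvd h
    rw [mem_filter, mem_Icc] at hq
    rw [Nat.prime_dvd_prime_iff_eq hp hq.2.1] at hd
    exact ⟨hd ▸ hq.1.2, hd ▸ hq.2.2⟩
  · rintro ⟨h1, h2⟩
    exact dvd_prod_of_mem (fun p => p) (mem_filter.2 ⟨mem_Icc.2 ⟨hp.one_lt.le, h1⟩, hp, h2⟩)

theorem PP_sqf (y p₀ : ℕ) : Squarefree (PP y p₀) := by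
  unfold PP
  refine Finset.squarefree_prod_of_pairwise_isCoprime (fun p hp q hq hne => ?_) fun p hp => ?_
  · rw [mem_coe, mem_filter] at hp hq
    exact Nat.coprime_iff_isRelPrime.1 ((Nat.coprime_primes hp.2.1 hq.2.1).2 hne)
  · exact (mem_filter.1 hp).2.1.prime.squarefree

theorem PP_primeFactors (y p₀ : ℕ) :
    (PP y p₀).primeFactors = (Icc 1 y).filter (fun p => p.Prime ∧ p ≠ p₀) := by
  ext p
  rw [Nat.mem_primeFactors, mem_filter, mem_Icc]
  constructor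
  · rintro ⟨h1, h2, -⟩
    obtain ⟨h3, h4⟩ := (PP_dvd h1).1 h2
    exact ⟨⟨h1.one_lt.le, h3⟩, h1, h4⟩
  · rintro ⟨⟨_, h3⟩, h1, h4⟩
    exact ⟨h1, (PP_dvd h1).2 ⟨h3, h4⟩, (PP_pos y p₀).ne'⟩

theorem PP_le (y p₀ : ℕ) : PP y p₀ ≤ 4 ^ y := by
  refine le_trans ?_ (primorial_le_four_pow y)
  unfold PP primorial
  refine Finset.prod_le_prod_of_subset_of_one_le' (fun p hp => ?_) fun p hp _ => ?_
  · rw [mem_filter, mem_Icc] at hp
    rw [mem_filter, mem_range]
    exact ⟨by omega, hp.2.1⟩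
  · exact (mem_filter.1 hp).2.one_lt.le

theorem PP_ratio : ∃ c : ℝ, 0 < c ∧ ∀ y p₀ : ℕ, 2 ≤ y → p₀.Prime →
    c * Real.log y ≤ (PP y p₀ : ℝ) / (PP y p₀).totient := by
  obtain ⟨C, hC, HV⟩ := V_up0
  refine ⟨1 / C, by positivity, fun y p₀ hy hp₀ => ?_⟩
  have hly : 0 < Real.log y := Real.log_pos (by exact_mod_cast (by omega : 1 < y))
  have hP0 : (0 : ℝ) < PP y p₀ := by exact_mod_cast PP_pos y p₀
  have hφ0 : (0 : ℝ) < (PP y p₀).totient := by exact_mod_cast Nat.totient_pos.2 (PP_pos y p₀)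
  have h1 := V_primeFactors (PP_pos y p₀)
  have h2 : V (PP y p₀).primeFactors ≤ V ((Ioc 2 y).filter (fun p => p.Prime ∧ ¬ p ∣ p₀)) := by
    refine V_anti (fun p hp => ?_) fun p hp => Nat.prime_of_mem_primeFactors hp
    rw [PP_primeFactors]
    rw [mem_filter, mem_Ioc] at hp
    rw [mem_filter, mem_Icc]
    refine ⟨⟨by omega, hp.1.2⟩, hp.2.1, ?_⟩
    rintro rfl
    exact hp.2.2 dvd_rfl
  have h3 := HV 2 y le_rfl hy p₀ hp₀.one_lt.le (by
    rw [hp₀.primeFactors]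
    have h6 : ∑ p ∈ ({p₀} : Finset ℕ).filter (fun p => 2 < p), (1 : ℝ) / p ≤
        ∑ p ∈ ({p₀} : Finset ℕ), (1 : ℝ) / p :=
      sum_le_sum_of_subset_of_nonneg (filter_subset _ _) fun _ _ _ => by positivity
    refine h6.trans ?_
    rw [sum_singleton, div_le_one (by exact_mod_cast hp₀.pos)]
    exact_mod_cast hp₀.one_lt.le)
  have hl2 : Real.log (2 : ℕ) ≤ 1 := by
    have := Real.log_two_lt_d9
    push_cast
    linarith
  have h4 : ((PP y p₀).totient : ℝ) / PP y p₀ ≤ C * (1 / Real.log y) := by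
    rw [← h1]
    exact (h2.trans h3).trans
      (mul_le_mul_of_nonneg_left (div_le_div_of_nonneg_right hl2 hly.le) hC.le)
  rw [div_le_iff₀ hP0] at h4
  rw [le_div_iff₀ hφ0]
  calc 1 / C * Real.log y * (PP y p₀).totient ≤
      1 / C * Real.log y * (C * (1 / Real.log y) * PP y p₀) :=
        mul_le_mul_of_nonneg_left h4 (by positivity)
    _ = PP y p₀ := by field_simp

open Classical in
theorem first {K z q h H : ℕ} {c : ℝ} (hz : 0 < z) (hq : 0 < q) (hh : h ≤ H)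
    (hS : c / (q.totient : ℝ) ≤
      ∑ p ∈ (Ioc z (z ^ K)).filter (fun p => p.Prime ∧ p ≡ h [MOD q]), (1 : ℝ) / p)
    (hsm : (H : ℝ) / z ≤ c / 2 / (q.totient : ℝ)) :
    c / 2 * ((q : ℝ) / q.totient) ≤ ∑ m ∈ (Icc 1 (z ^ K)).filter
      (fun m => z < m * q ∧ m * q ≤ z ^ K ∧ (m * q + h).Prime), 1 / (m : ℝ) := by
  have hz0 : (0 : ℝ) < z := by exact_mod_cast hz
  have hq0 : (0 : ℝ) < q := by exact_mod_cast hq
  obtain ⟨S, hSd⟩ : ∃ S, S = (Ioc z (z ^ K)).filter (fun p => p.Prime ∧ p ≡ h [MOD q]) := ⟨_, rfl⟩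
  rw [← hSd] at hS
  have hSm : ∀ p ∈ S, z < p ∧ p ≤ z ^ K ∧ p.Prime ∧ p ≡ h [MOD q] := fun p hp => by
    rw [hSd, mem_filter, mem_Ioc] at hp
    exact ⟨hp.1.1, hp.1.2, hp.2.1, hp.2.2⟩
  have h1 : ∑ p ∈ S.filter (fun p => p ≤ z + H), (1 : ℝ) / p ≤ H / z := by
    have h2 : (S.filter (fun p => p ≤ z + H)).card ≤ H := by
      have h3 : S.filter (fun p => p ≤ z + H) ⊆ Ioc z (z + H) := fun p hp => by
        rw [mem_filter] at hp
        exact mem_Ioc.2 ⟨(hSm p hp.1).1, hp.2⟩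
      have h4 := card_le_card h3
      rwa [Nat.card_Ioc, Nat.add_sub_cancel_left] at h4
    refine (sum_le_card_nsmul _ _ (1 / (z : ℝ)) fun p hp => ?_).trans ?_
    · exact one_div_le_one_div_of_le hz0 (by exact_mod_cast (hSm p (mem_filter.1 hp).1).1.le)
    · rw [nsmul_eq_mul, mul_one_div]
      exact div_le_div_of_nonneg_right (by exact_mod_cast h2) hz0.le
  obtain ⟨A, hA⟩ : ∃ A, A = S.filter (fun p => ¬ p ≤ z + H) := ⟨_, rfl⟩
  obtain ⟨B, hB⟩ : ∃ B, B = (Icc 1 (z ^ K)).filter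
      (fun m => z < m * q ∧ m * q ≤ z ^ K ∧ (m * q + h).Prime) := ⟨_, rfl⟩
  have hAm : ∀ p ∈ A, (p - h) / q * q + h = p ∧ z + H < p ∧ p ≤ z ^ K ∧ p.Prime := by
    intro p hp
    rw [hA, mem_filter] at hp
    obtain ⟨h3, h4, h5, h6⟩ := hSm p hp.1
    have h7 : z + H < p := by omega
    have h8 : q ∣ p - h := (Nat.modEq_iff_dvd' (by omega)).1 h6.symm
    refine ⟨?_, h7, h4, h5⟩
    rw [Nat.div_mul_cancel h8]
    omega
  have h2 : ∑ p ∈ A, (1 : ℝ) / p ≤ ∑ m ∈ B, 1 / (m : ℝ) * (1 / q) := by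
    have h3 : A.image (fun p => (p - h) / q) ⊆ B := by
      intro m hm
      obtain ⟨p, hp, rfl⟩ := mem_image.1 hm
      obtain ⟨h4, h5, h6, h7⟩ := hAm p hp
      have h8 : z < (p - h) / q * q := by omega
      rw [hB, mem_filter, mem_Icc]
      refine ⟨⟨?_, ?_⟩, h8, by omega, h4.symm ▸ h7⟩
      · rcases Nat.eq_zero_or_pos ((p - h) / q) with h9 | h9
        · rw [h9, zero_mul] at h8
          omega
        · exact h9
      · exact (Nat.div_le_self _ _).trans (by omega)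
    have h4 : Set.InjOn (fun p => (p - h) / q) (A : Set ℕ) := by
      intro p hp p' hp' he
      have h5 := (hAm p hp).1
      have h6 := (hAm p' hp').1
      simp only at he
      rw [← h5, ← h6, he]
    calc ∑ p ∈ A, (1 : ℝ) / p ≤ ∑ p ∈ A, 1 / (((p - h) / q : ℕ) : ℝ) * (1 / q) := by
          refine sum_le_sum fun p hp => ?_
          obtain ⟨h5, h6, h7, h8⟩ := hAm p hp
          have h9 : 0 < (p - h) / q := by
            rcases Nat.eq_zero_or_pos ((p - h) / q) with h9 | h9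
            · rw [h9, zero_mul] at h5
              omega
            · exact h9
          rw [one_div_mul_one_div]
          refine one_div_le_one_div_of_le ?_ ?_
          · exact mul_pos (by exact_mod_cast h9) hq0
          · exact_mod_cast (by omega : (p - h) / q * q ≤ p)
      _ = ∑ m ∈ A.image (fun p => (p - h) / q), 1 / (m : ℝ) * (1 / q) :=
          (sum_image (f := fun m : ℕ => 1 / (m : ℝ) * (1 / (q : ℝ))) h4).symm
      _ ≤ _ := sum_le_sum_of_subset_of_nonneg h3 fun _ _ _ => by positivity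
  have h3 := sum_filter_add_sum_filter_not S (fun p => p ≤ z + H) (fun p => (1 : ℝ) / p)
  rw [← hA] at h3
  rw [← sum_mul] at h2
  rw [← hB]
  have h4 : c / 2 / (q.totient : ℝ) ≤ (∑ m ∈ B, 1 / (m : ℝ)) * (1 / q) := by
    have h5 : c / (q.totient : ℝ) = c / 2 / (q.totient : ℝ) + c / 2 / (q.totient : ℝ) := by ring
    linarith
  rw [mul_one_div, le_div_iff₀ hq0] at h4
  calc c / 2 * ((q : ℝ) / q.totient) = c / 2 / (q.totient : ℝ) * q := by ring
    _ ≤ _ := h4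

end Pool.Agent.R529.FT
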