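import Pool.Agent.R529.FT.Count
import Pool.Agent.R529.FT.Part

/-!
The second moment.
-/

set_option autoImplicit false

namespace Pool.Agent.R529.FT

open Finset Filter

theorem exp_big (b : ℝ) (hb : 0 < b) : ∀ᶠ x : ℝ in atTop, x ≤ Real.exp (x / b) := by
  have h2 : Tendsto (fun x : ℝ => x / b) atTop atTop := tendsto_id.atTop_div_const hb
  have h1 := ((Real.tendsto_exp_div_pow_atTop 1).comp h2).eventually_ge_atTop b
  filter_upwards [h1, eventually_gt_atTop (0 : ℝ)] with x h3 h4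
  simp only [Function.comp, pow_one] at h3
  rw [le_div_iff₀ (by positivity)] at h3
  calc x = b * (x / b) := by field_simp
    _ ≤ _ := h3

open Classical in
theorem pair_sum (K : ℕ) (hK : 1 ≤ K) : ∃ (C : ℝ) (z0 : ℕ), 0 < C ∧ ∀ z y P h h' : ℕ, z0 ≤ z →
    2 ≤ y → (y : ℝ) ≤ Real.log z → P ^ 16 ≤ z → 0 < P → (∀ p : ℕ, p.Prime → p ∣ P → p ≤ y) →
    h ≠ h' → h ≤ y ^ 2 → h' ≤ y ^ 2 →
    ∑ m ∈ (Icc 1 (z ^ K)).filter (fun m => z < m * P ∧ (m * P + h).Prime ∧ (m * P + h').Prime),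
      1 / (m : ℝ) ≤ C * (Real.log y ^ 2 / Real.log z) := by
  obtain ⟨E, C2, w0, hE, hC2, HS⟩ := pair_sieve
  obtain ⟨Y1, hY1, HW⟩ := ex_w (4 * E) (max w0 2) (by omega)
  have hE0 : (0 : ℝ) < E := by exact_mod_cast hE
  have hK0 : (1 : ℝ) ≤ K := by exact_mod_cast hK
  obtain ⟨z2, hz2⟩ := eventually_atTop.1 ((Real.tendsto_log_atTop.comp
    tendsto_natCast_atTop_atTop).eventually (exp_big (2 * (4 * E : ℕ)) (by positivity)))
  refine ⟨C2 * (8 * E) ^ 2 * (2 * K), max (max Y1 z2) 3, by positivity, ?_⟩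
  intro z y P h h' hz hy hyz hPz hP0 hP hne hh hh'
  have hzz : Y1 ≤ z ∧ z2 ≤ z ∧ 3 ≤ z := by omega
  obtain ⟨hz1, hz2', hz3⟩ := hzz
  obtain ⟨w, hw0, hwE, hlw⟩ := HW z hz1
  have hw0' : w0 ≤ w := (le_max_left _ _).trans hw0
  have hw2 : 2 ≤ w := (le_max_right _ _).trans hw0
  have hlw0 : 0 < Real.log w := Real.log_pos (by exact_mod_cast (by omega : 1 < w))
  have hwr : (0 : ℝ) < w := by exact_mod_cast (by omega : 0 < w)
  have hlz1 : (1 : ℝ) ≤ Real.log z := by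
    rw [Real.le_log_iff_exp_le (by exact_mod_cast (by omega : 0 < z))]
    have h5 : Real.exp 1 < 2.7182818286 := Real.exp_one_lt_d9
    have h6 : (3 : ℝ) ≤ (z : ℝ) := by exact_mod_cast hz3
    linarith
  have hly : 0 < Real.log y := Real.log_pos (by exact_mod_cast (by omega : 1 < y))
  have hyw : y ≤ w := by
    have h1 := hz2 z hz2'
    simp only [Function.comp] at h1
    have h2 : Real.exp (Real.log z / (2 * (4 * E : ℕ))) ≤ Real.exp (Real.log w) :=
      Real.exp_le_exp.2 hlw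
    rw [Real.exp_log hwr] at h2
    exact_mod_cast (hyz.trans h1).trans h2
  -- the sieve bound
  obtain ⟨α, hα⟩ : ∃ α : ℝ, α = C2 * (Real.log y / Real.log w) ^ 2 := ⟨_, rfl⟩
  obtain ⟨Q, hQ⟩ : ∃ Q : ℕ → Prop, ∀ m, Q m ↔ (z < m * P ∧ (m * P + h).Prime ∧ (m * P + h').Prime) :=
    ⟨_, fun _ => Iff.rfl⟩
  have hM1 : 1 ≤ w ^ E := Nat.one_le_pow _ _ (by omega)
  have hwz : w ≤ z := (Nat.le_self_pow (by omega) w).trans hwE
  have hcnt : ∀ X, w ^ E ≤ X → (((Icc 1 X).filter Q).card : ℝ) ≤ α * X := by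
    intro X hX
    have h1 := HS y w X P h h' hw0' hy hyw hX hP hne hh hh'
    refine le_trans (Nat.cast_le.2 (card_le_card fun m hm => ?_)) (h1.trans (le_of_eq ?_))
    · rw [mem_filter, hQ] at hm
      rw [mem_filter]
      obtain ⟨hm1, hm2, hm3, hm4⟩ := hm
      refine ⟨hm1, fun p hp hyp hpw => ⟨fun hd => ?_, fun hd => ?_⟩⟩
      · have := (Nat.prime_dvd_prime_iff_eq hp hm3).1 hd
        omega
      · have := (Nat.prime_dvd_prime_iff_eq hp hm4).1 hd
        omega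
    · rw [hα]; ring
  have hwK : w ^ E ≤ z ^ K := by
    calc w ^ E ≤ w ^ (4 * E) := Nat.pow_le_pow_right (by omega) (by omega)
      _ ≤ z := hwE
      _ ≤ z ^ K := Nat.le_self_pow (by omega) z
  have h1 := log_sum Q hM1 hcnt (z ^ K) hwK
  have h2 : (Icc 1 (z ^ K)).filter (fun m => z < m * P ∧ (m * P + h).Prime ∧ (m * P + h').Prime) ⊆
      (Ioc (w ^ E) (z ^ K)).filter Q := by
    intro m hm
    rw [mem_filter, mem_Icc] at hm
    rw [mem_filter, mem_Ioc, hQ]
    refine ⟨⟨?_, hm.1.2⟩, hm.2⟩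
    by_contra hc
    push Not at hc
    have h3 : m ^ 4 ≤ z := by
      calc m ^ 4 ≤ (w ^ E) ^ 4 := Nat.pow_le_pow_left hc 4
        _ = w ^ (4 * E) := by rw [← pow_mul, mul_comm]
        _ ≤ z := hwE
    have h4 : P ^ 4 ≤ z := (Nat.pow_le_pow_right hP0 (by norm_num)).trans hPz
    have h5 : (m * P) ^ 4 ≤ z ^ 2 := by
      rw [mul_pow, sq]
      exact Nat.mul_le_mul h3 h4
    have h6 : z ^ 2 ≤ z ^ 4 := Nat.pow_le_pow_right (by omega) (by norm_num)
    have h7 := (Nat.pow_le_pow_iff_left (by norm_num : (4 : ℕ) ≠ 0)).1 (h5.trans h6)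
    have := hm.2.1
    omega
  have h3 : ∑ m ∈ (Icc 1 (z ^ K)).filter
      (fun m => z < m * P ∧ (m * P + h).Prime ∧ (m * P + h').Prime), 1 / (m : ℝ) ≤
      ∑ m ∈ (Ioc (w ^ E) (z ^ K)).filter Q, 1 / (m : ℝ) :=
    sum_le_sum_of_subset_of_nonneg h2 fun _ _ _ => by positivity
  refine h3.trans (h1.trans ?_)
  have h4 : 1 + Real.log ((z ^ K : ℕ) : ℝ) ≤ 2 * K * Real.log z := by
    push_cast
    rw [Real.log_pow]
    nlinarith
  have h5 : α ≤ C2 * (8 * E) ^ 2 * (Real.log y ^ 2 / Real.log z ^ 2) := by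
    rw [hα, mul_assoc]
    refine mul_le_mul_of_nonneg_left ?_ hC2.le
    have h6 : Real.log y / Real.log w ≤ 8 * E * (Real.log y / Real.log z) := by
      rw [mul_div_assoc', div_le_div_iff₀ hlw0 (by linarith)]
      rw [div_le_iff₀ (by positivity)] at hlw
      push_cast at hlw
      calc Real.log y * Real.log z ≤ Real.log y * (Real.log w * (2 * (4 * E))) :=
            mul_le_mul_of_nonneg_left hlw hly.le
        _ = _ := by ring
    calc (Real.log y / Real.log w) ^ 2 ≤ (8 * E * (Real.log y / Real.log z)) ^ 2 :=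
          pow_le_pow_left₀ (by positivity) h6 2
      _ = _ := by rw [mul_pow, div_pow]
  have h6 : 0 ≤ α := by rw [hα]; positivity
  calc α * (1 + Real.log ((z ^ K : ℕ) : ℝ)) ≤
      C2 * (8 * E) ^ 2 * (Real.log y ^ 2 / Real.log z ^ 2) * (2 * K * Real.log z) :=
        mul_le_mul h5 h4 (by
          have := Real.log_natCast_nonneg (z ^ K)
          linarith) (by positivity)
    _ = _ := by
        have : Real.log z ≠ 0 := by linarith
        field_simp

end Pool.Agent.R529.FT
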