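import Pool.Agent.R529.FT.First
import Pool.Agent.R529.FT.Comb
import Pool.Agent.R529.FT.PairSum
import Pool.Agent.Y835.SC.PLow

/-!
The multiples of a primorial (one prime excepted) with Fortune's property.
-/

set_option autoImplicit false

namespace Pool.Agent.R529.FT

open Finset Filter

open Classical in
/-- the shape of the next prime -/
theorem good {y H p₀ z m h : ℕ} (hyz : y < z) (hm : z < m * PP y p₀) (hh : h ∈ (Ioc y H).filter Nat.Prime)
    (hy : 2 ≤ y) (hp : (m * PP y p₀ + h).Prime)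
    (hu : ∀ h' ∈ (Icc 2 H).filter (fun h' => ∀ p : ℕ, p.Prime → p ≤ y → p ≠ p₀ → ¬ p ∣ h'), h' ≠ h →
      ¬ (m * PP y p₀ + h').Prime) :
    ∃ q : ℕ, IsLeast {r : ℕ | r.Prime ∧ m * PP y p₀ + 1 < r} q ∧ (q - m * PP y p₀).Prime ∧
      q ≤ m * PP y p₀ + H := by
  rw [mem_filter, mem_Ioc] at hh
  refine ⟨m * PP y p₀ + h, ⟨⟨hp, by omega⟩, ?_⟩, ?_, by omega⟩
  · rintro r ⟨hr, hr1⟩
    by_contra hc
    push Not at hc
    have h1 : m * PP y p₀ + (r - m * PP y p₀) = r := by omega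
    refine hu (r - m * PP y p₀) ?_ (by omega) (by rw [h1]; exact hr)
    rw [mem_filter, mem_Icc]
    refine ⟨by omega, fun p hpp hpy hp0 hd => ?_⟩
    have h2 : p ∣ m * PP y p₀ := ((PP_dvd hpp).2 ⟨hpy, hp0⟩).mul_left m
    have h3 : p ∣ r := by
      rw [← h1]
      exact dvd_add h2 hd
    have := (Nat.prime_dvd_prime_iff_eq hpp hr).1 h3
    omega
  · rw [Nat.add_sub_cancel_left]
    exact hh.2

open Classical in
theorem main : ∃ (K : ℕ) (c : ℝ) (z0 : ℕ), 1 ≤ K ∧ 0 < c ∧ ∀ z : ℕ, z0 ≤ z → ∃ p₀ : ℕ, p₀.Prime ∧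
    Real.log (Real.log z) ≤ p₀ ∧ ∀ y H : ℕ, 1 ≤ y → (y : ℝ) ≤ c * H → (H : ℝ) ≤ c * Real.log z →
    H ≤ y ^ 2 → c * H ≤ ∑ m ∈ (Icc 1 (z ^ K)).filter (fun m => z < m * PP y p₀ ∧
      m * PP y p₀ ≤ z ^ K ∧ ∃ q : ℕ, IsLeast {r : ℕ | r.Prime ∧ m * PP y p₀ + 1 < r} q ∧
        (q - m * PP y p₀).Prime ∧ q ≤ m * PP y p₀ + H), 1 / (m : ℝ) := by
  obtain ⟨K, cp, hK, hcp, z1, HP⟩ := page 2
  obtain ⟨C5, z2, hC5, HPS⟩ := pair_sum K hK
  obtain ⟨C3, hC3, HC⟩ := single_sieve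
  obtain ⟨c4, hc4, HR⟩ := PP_ratio
  obtain ⟨Y0, HY⟩ := Pool.Agent.Y835.SC.primes_low
  obtain ⟨c5, hc5⟩ : ∃ c5 : ℝ, c5 = cp / 2 * c4 := ⟨_, rfl⟩
  have hc50 : 0 < c5 := by rw [hc5]; positivity
  obtain ⟨Y2, hY2⟩ : ∃ Y2 : ℕ, Y2 = max Y0 2 := ⟨_, rfl⟩
  have hY2' : (2 : ℝ) ≤ Y2 := by
    have : 2 ≤ Y2 := by omega
    exact_mod_cast this
  obtain ⟨c, hc⟩ : ∃ c : ℝ, c = min (min (1 / 100 : ℝ) (1 / (Y2 : ℝ)))
    (min (c5 / (2 * (C3 * C5))) (c5 / 8)) := ⟨_, rfl⟩
  have hc0 : 0 < c := by rw [hc]; positivity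
  have hc1 : c ≤ 1 / 100 := by rw [hc]; exact (min_le_left _ _).trans (min_le_left _ _)
  have hc2 : c ≤ 1 / Y2 := by rw [hc]; exact (min_le_left _ _).trans (min_le_right _ _)
  have hc3 : c ≤ c5 / (2 * (C3 * C5)) := by rw [hc]; exact (min_le_right _ _).trans (min_le_left _ _)
  have hc4' : c ≤ c5 / 8 := by rw [hc]; exact (min_le_right _ _).trans (min_le_right _ _)
  have hev : ∀ᶠ z : ℕ in atTop, (2 * Real.log z / cp) ^ 2 ≤ (z : ℝ) ∧ 3 ≤ Real.log z := by
    have h1 := (Real.isLittleO_pow_log_id_atTop (n := 2)).bound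
      (show (0 : ℝ) < (cp / 2) ^ 2 by positivity)
    have h2 := (tendsto_natCast_atTop_atTop (R := ℝ)).eventually h1
    have h3 := (Real.tendsto_log_atTop.comp (tendsto_natCast_atTop_atTop (R := ℝ))).eventually_ge_atTop 3
    filter_upwards [h2, h3] with z h4 h5
    simp only [Function.comp] at h5
    refine ⟨?_, h5⟩
    rw [id, Real.norm_of_nonneg (by positivity), Real.norm_of_nonneg (Nat.cast_nonneg _)] at h4
    calc (2 * Real.log z / cp) ^ 2 = Real.log z ^ 2 / (cp / 2) ^ 2 := by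
          field_simp
      _ ≤ (z : ℝ) := by
          rw [div_le_iff₀ (by positivity)]
          linarith
  obtain ⟨z3, hz3⟩ := eventually_atTop.1 hev
  refine ⟨K, c, max (max z1 z2) (max z3 3), hK, hc0, ?_⟩
  intro z hz
  have hzz : z1 ≤ z ∧ z2 ≤ z ∧ z3 ≤ z ∧ 3 ≤ z := by omega
  obtain ⟨hz1, hz2, hz3', hz4⟩ := hzz
  obtain ⟨hzl, hlz3⟩ := hz3 z hz3'
  obtain ⟨q₁, hq₁, hq₁L, HPq⟩ := HP z hz1
  obtain ⟨p₀, hp₀, hp₀L, hex⟩ := exc_prime hq₁ (L := Real.log z) (by linarith) hq₁L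
  refine ⟨p₀, hp₀, hp₀L, ?_⟩
  intro y H hy1 hyH hHz hHy
  have hz0 : (0 : ℝ) < z := by exact_mod_cast (by omega : 0 < z)
  have hy0 : (1 : ℝ) ≤ y := by exact_mod_cast hy1
  have hH0 : (0 : ℝ) < H := by
    by_contra hcon
    push Not at hcon
    nlinarith
  have hHyr : (H : ℝ) ≤ (y : ℝ) ^ 2 := by exact_mod_cast hHy
  -- `y` is large
  have hyY : (Y2 : ℝ) ≤ y := by
    have h1 : (1 : ℝ) ≤ c * y := by
      have h2 : (y : ℝ) * 1 ≤ y * (c * y) := by nlinarith
      exact le_of_mul_le_mul_left h2 (by linarith)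
    have h2 : c * y ≤ 1 / Y2 * y := mul_le_mul_of_nonneg_right hc2 (by linarith)
    have h3 : (1 : ℝ) ≤ 1 / Y2 * y := h1.trans h2
    rw [one_div_mul_eq_div, le_div_iff₀ (by linarith), one_mul] at h3
    exact h3
  have hyY' : Y2 ≤ y := by exact_mod_cast hyY
  have hy2 : 2 ≤ y := by omega
  have hyY0 : Y0 ≤ y := by omega
  have hly : 0 < Real.log y := Real.log_pos (by exact_mod_cast (by omega : 1 < y))
  have hyH10 : 10 * y ≤ H := by
    have h1 : (10 : ℝ) * y ≤ H := by nlinarith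
    exact_mod_cast h1
  have hlH : Real.log H ≤ 2 * Real.log y := by
    have h1 := Real.log_le_log hH0 hHyr
    rw [Real.log_pow] at h1
    exact_mod_cast h1
  have hlH0 : 0 < Real.log H := Real.log_pos (by exact_mod_cast (by omega : 1 < H))
  have hHlz : (H : ℝ) ≤ Real.log z := by nlinarith
  have hy32 : (y : ℝ) ≤ Real.log z / 32 := by nlinarith
  have hylz : (y : ℝ) ≤ Real.log z := by linarith
  obtain ⟨P, hP⟩ : ∃ P : ℕ, P = PP y p₀ := ⟨_, rfl⟩
  have hP0 : 0 < P := by rw [hP]; exact PP_pos y p₀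
  have hP0r : (0 : ℝ) < P := by exact_mod_cast hP0
  have hP16 : P ^ 16 ≤ z := by
    have h1 : P ^ 16 ≤ 4 ^ (16 * y) := by
      calc P ^ 16 ≤ (4 ^ y) ^ 16 := Nat.pow_le_pow_left (by rw [hP]; exact PP_le y p₀) 16
        _ = 4 ^ (16 * y) := by rw [← pow_mul, mul_comm]
    have h2 : ((4 : ℝ)) ^ (16 * y) ≤ z := by
      rw [← Real.log_le_log_iff (by positivity) hz0, Real.log_pow]
      have hl4 : Real.log 4 ≤ 1.3863 := by
        have := Real.log_two_lt_d9
        rw [show (4 : ℝ) = 2 ^ 2 by norm_num, Real.log_pow]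
        push_cast
        linarith
      push_cast
      have h3 : (16 * (y : ℝ)) * Real.log 4 ≤ (16 * (y : ℝ)) * 1.3863 :=
        mul_le_mul_of_nonneg_left hl4 (by positivity)
      linarith
    exact h1.trans (by exact_mod_cast h2)
  have hPd : ∀ p : ℕ, p.Prime → p ∣ P → p ≤ y := fun p hp hd => by
    rw [hP] at hd
    exact ((PP_dvd hp).1 hd).1
  have hyz : y < z := by
    have h1 : Real.log z ≤ z := (Real.log_le_sub_one_of_pos hz0).trans (by linarith)
    have h2 : (y : ℝ) < z := by linarith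
    exact_mod_cast h2
  have hφ0 : (0 : ℝ) < P.totient := by exact_mod_cast Nat.totient_pos.2 hP0
  have hsm : (H : ℝ) / z ≤ cp / 2 / (P.totient : ℝ) := by
    have h1 : (P.totient : ℝ) ≤ P := by exact_mod_cast Nat.totient_le P
    have h2 : (P : ℝ) ^ 2 ≤ z := by
      have h3 : P ^ 2 ≤ P ^ 16 := Nat.pow_le_pow_right hP0 (by norm_num)
      exact_mod_cast h3.trans hP16
    have h4 : (2 * Real.log z / cp) * P ≤ z := by
      have h5 : ((2 * Real.log z / cp) * P) ^ 2 ≤ (z : ℝ) ^ 2 := by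
        rw [mul_pow, sq (z : ℝ)]
        exact mul_le_mul hzl h2 (by positivity) (by positivity)
      exact le_of_sq_le_sq h5 hz0.le
    rw [div_le_div_iff₀ hz0 hφ0]
    have h6 : (2 * Real.log z / cp) * P = (2 / cp) * (Real.log z * P) := by ring
    have h7 : Real.log z * P ≤ cp / 2 * z := by
      have h8 : (2 / cp) * (Real.log z * P) ≤ z := by rw [← h6]; exact h4
      calc Real.log z * P = cp / 2 * ((2 / cp) * (Real.log z * P)) := by field_simp
        _ ≤ _ := mul_le_mul_of_nonneg_left h8 (by positivity)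
    calc (H : ℝ) * P.totient ≤ Real.log z * P := mul_le_mul hHlz h1 (by positivity) (by linarith)
      _ ≤ _ := h7
  -- the sets
  obtain ⟨M, hM⟩ : ∃ M, M = (Icc 1 (z ^ K)).filter (fun m => z < m * P ∧ m * P ≤ z ^ K) := ⟨_, rfl⟩
  obtain ⟨S, hS⟩ : ∃ S, S = (Ioc y H).filter Nat.Prime := ⟨_, rfl⟩
  obtain ⟨T, hT⟩ : ∃ T, T = (Icc 2 H).filter
    (fun h' => ∀ p : ℕ, p.Prime → p ≤ y → p ≠ p₀ → ¬ p ∣ h') := ⟨_, rfl⟩
  have hST : S ⊆ T := by
    intro h hh
    rw [hS, mem_filter, mem_Ioc] at hh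
    rw [hT, mem_filter, mem_Icc]
    refine ⟨by omega, fun p hpp hp _ hd => ?_⟩
    have := (Nat.prime_dvd_prime_iff_eq hpp hh.2).1 hd
    omega
  have hTc : (T.card : ℝ) ≤ C3 * (H / Real.log y) := by
    refine le_trans (Nat.cast_le.2 (card_le_card fun h hh => ?_)) (HC y H p₀ hy2 (by omega) hp₀)
    rw [hT, mem_filter, mem_Icc] at hh
    rw [mem_filter, mem_Icc]
    exact ⟨by omega, hh.2⟩
  have hSc : (H : ℝ) / (4 * Real.log y) ≤ S.card := by
    have h1 := HY y H hyY0 hyH10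
    rw [← hS] at h1
    refine le_trans ?_ h1
    refine div_le_div_of_nonneg_left hH0.le (by positivity) ?_
    linarith
  have hfirst : ∀ h ∈ S, c5 * Real.log y ≤
      ∑ m ∈ M.filter (fun m => (m * P + h).Prime), 1 / (m : ℝ) := by
    intro h hh
    rw [hS, mem_filter, mem_Ioc] at hh
    have hco : h.Coprime P := by
      rw [Nat.Prime.coprime_iff_not_dvd hh.2]
      intro hd
      have := hPd h hh.2 hd
      omega
    have h1 := HPq P h hP0 hP16 (by
      rw [hP]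
      exact hex (PP y p₀) (PP_sqf y p₀) (fun hd => ((PP_dvd hp₀).1 hd).2 rfl)) hco
    have h2 := first (H := H) (by omega) hP0 hh.1.2 h1 hsm
    have h3 := HR y p₀ hy2 hp₀
    rw [← hP] at h3
    rw [hM, filter_filter]
    calc c5 * Real.log y = cp / 2 * (c4 * Real.log y) := by rw [hc5]; ring
      _ ≤ cp / 2 * ((P : ℝ) / P.totient) := mul_le_mul_of_nonneg_left h3 (by positivity)
      _ ≤ _ := h2
      _ = _ := by
        refine sum_congr (filter_congr fun m _ => ?_) fun _ _ => rfl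
        tauto
  have hpair : ∀ h ∈ S, ∀ h' ∈ T, h' ≠ h → ∑ m ∈ M.filter
      (fun m => (m * P + h).Prime ∧ (m * P + h').Prime), 1 / (m : ℝ) ≤
      C5 * (Real.log y ^ 2 / Real.log z) := by
    intro h hh h' hh' hne
    rw [hS, mem_filter, mem_Ioc] at hh
    rw [hT, mem_filter, mem_Icc] at hh'
    have h1 := HPS z y P h h' hz2 hy2 hylz hP16 hP0 hPd hne.symm (by omega) (by omega)
    refine le_trans (sum_le_sum_of_subset_of_nonneg (fun m hm => ?_) fun _ _ _ => by positivity) h1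
    rw [hM, mem_filter, mem_filter] at hm
    rw [mem_filter]
    exact ⟨hm.1.1, hm.1.2.1, hm.2⟩
  have hlz0 : 0 < Real.log z := by linarith
  obtain ⟨E, hE⟩ : ∃ E : ℕ → ℕ → Prop, ∀ m h, E m h ↔ (m * P + h).Prime := ⟨_, fun _ _ => Iff.rfl⟩
  obtain ⟨G, hG⟩ : ∃ G : ℕ → Prop, ∀ m, G m ↔ ∃ q : ℕ, IsLeast {r : ℕ | r.Prime ∧ m * P + 1 < r} q ∧
    (q - m * P).Prime ∧ q ≤ m * P + H := ⟨_, fun _ => Iff.rfl⟩
  have hW := weighted (M := M) hST E G (fun m hm h hh hE1 hu => by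
        rw [hM, mem_filter] at hm
        rw [hS] at hh
        rw [hT] at hu
        simp only [hE] at hE1 hu
        rw [hG]
        rw [hP] at hm hE1 hu ⊢
        exact good hyz hm.2.1 hh hy2 hE1 hu) (f := c5 * Real.log y)
        (g := C5 * (Real.log y ^ 2 / Real.log z)) (fun h hh => by
        refine (hfirst h hh).trans (le_of_eq (sum_congr ?_ fun _ _ => rfl))
        ext m
        simp only [mem_filter, hE]) (fun h hh h' hh' hne => by
        refine le_trans (le_of_eq (sum_congr ?_ fun _ _ => rfl)) (hpair h hh h' hh' hne)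
        ext m
        simp only [mem_filter, hE]) (by positivity)
  have hfin : M.filter G = (Icc 1 (z ^ K)).filter (fun m => z < m * P ∧
      m * P ≤ z ^ K ∧ ∃ q : ℕ, IsLeast {r : ℕ | r.Prime ∧ m * P + 1 < r} q ∧
        (q - m * P).Prime ∧ q ≤ m * P + H) := by
    ext m
    simp only [hM, mem_filter, hG]
    tauto
  rw [hfin] at hW
  rw [← hP]
  refine le_trans ?_ hW
  have h1 : (T.card : ℝ) * (C5 * (Real.log y ^ 2 / Real.log z)) ≤ c5 / 2 * Real.log y := by
    calc (T.card : ℝ) * (C5 * (Real.log y ^ 2 / Real.log z)) ≤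
        C3 * (H / Real.log y) * (C5 * (Real.log y ^ 2 / Real.log z)) :=
          mul_le_mul_of_nonneg_right hTc (by positivity)
      _ = C3 * C5 * (H / Real.log z) * Real.log y := by
          field_simp
      _ ≤ C3 * C5 * c * Real.log y := by
          refine mul_le_mul_of_nonneg_right (mul_le_mul_of_nonneg_left ?_ (by positivity)) hly.le
          rw [div_le_iff₀ hlz0]
          exact hHz
      _ ≤ C3 * C5 * (c5 / (2 * (C3 * C5))) * Real.log y :=
          mul_le_mul_of_nonneg_right (mul_le_mul_of_nonneg_left hc3 (by positivity)) hly.le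
      _ = _ := by
          field_simp
  calc c * H ≤ c5 / 8 * H := mul_le_mul_of_nonneg_right hc4' hH0.le
    _ = (H : ℝ) / (4 * Real.log y) * (c5 / 2 * Real.log y) := by
        field_simp
        ring
    _ ≤ S.card * (c5 / 2 * Real.log y) := mul_le_mul_of_nonneg_right hSc (by positivity)
    _ ≤ _ := by
        refine mul_le_mul_of_nonneg_left ?_ (Nat.cast_nonneg _)
        linarith

end Pool.Agent.R529.FT
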