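import Pool.Agent.R529.FT.LinP
import Pool.Agent.Y835.SC.Page
import Pool.Agent.H262R3.Lk.SWQ
import Pool.Agent.R529.FT.Exc

/-!
`Pool.Agent.Y835.SC.page` with a lower bound for the exceptional modulus.
-/

set_option autoImplicit false

namespace Pool.Agent.R529.FT

open Finset Pool.Agent.H262R3.Lk Pool.Agent.W69.MH
open Pool.Agent.Y835.SC (Lj_lift)

/-- the Linnik type bound; the exceptional modulus is greater than `(log z)^B` -/
theorem page (B : ℕ) : ∃ (K : ℕ) (c : ℝ), 1 ≤ K ∧ 0 < c ∧ ∃ z0 : ℕ, ∀ z : ℕ, z0 ≤ z → ∃ q₁ : ℕ,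
    2 ≤ q₁ ∧ (Real.log z) ^ B < q₁ ∧
    ∀ q b : ℕ, 0 < q → q ^ 16 ≤ z → ¬ q₁ ∣ q → b.Coprime q →
    c / (q.totient : ℝ) ≤
      ∑ p ∈ (Ioc z (z ^ K)).filter (fun p => p.Prime ∧ p ≡ b [MOD q]), (1 : ℝ) / p := by
  have hSUM := Pool.Agent.W933.MHSum.sum_
  have hFL := Pool.Agent.W333.MH.fl
  have hDIFF := Pool.Agent.W505.MH.diff hFL hSUM
  have hA0 := Pool.Agent.W505.MH.a0 hFL hSUM
  have hCLS := Pool.Agent.W193.MH.Cls.cls hSUM
  have hB0 := Pool.Agent.H262R3.Lk.b0 Pool.Agent.W505.MH.bt hSUM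
  have hB2 := Pool.Agent.W440.MH.b2 hSUM
  have hALG := Pool.Agent.H262R3.Lk.alg hSUM
  have hLIN := linP hSUM hDIFF hA0 hB0 hB2 hALG Pool.Agent.W215.MH.eul hCLS
    Pool.Agent.W701.MH.abs_
  have hTAIL := Pool.Agent.W803.MH.tail Pool.Agent.W505.MH.bt hSUM
  obtain ⟨A, c, lam, hA, hc, hlam, hlam2, z1, h1⟩ := hLIN
  obtain ⟨K, z2, hK, h2⟩ := hTAIL A (c / 2) hA (by positivity)
  obtain ⟨z3, h3⟩ := Pool.Agent.H262R3.Lk.swq B
  have hK0 : (0 : ℝ) < (K : ℝ) := by exact_mod_cast hK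
  obtain ⟨z4, hz4⟩ := Filter.eventually_atTop.1 ((tendsto_natCast_atTop_atTop (R := ℝ)).eventually
    ((Pool.Agent.R529.FT.pow_log_lt B)))
  refine ⟨K, c / (2 * (K : ℝ) ^ 3), hK, by positivity, max (max (max z1 z2) (max z3 z4)) 3, ?_⟩
  intro z hz
  have hzz : z1 ≤ z ∧ z2 ≤ z ∧ z3 ≤ z ∧ z4 ≤ z ∧ 3 ≤ z := by omega
  obtain ⟨hz1, hz2, hz3, hz5, hz4'⟩ := hzz
  have h8 : ∀ q : ℕ, 0 < q → q ^ 16 ≤ z → q ^ 8 ≤ z := fun q hq h =>
    (Nat.pow_le_pow_right hq (by norm_num)).trans h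
  have hlog : (1 : ℝ) ≤ Real.log z := by
    rw [Real.le_log_iff_exp_le (by exact_mod_cast (by omega : 0 < z))]
    have h5 : Real.exp 1 < 2.7182818286 := Real.exp_one_lt_d9
    have h6 : (3 : ℝ) ≤ (z : ℝ) := by exact_mod_cast hz4'
    linarith
  -- it is enough that no real character is exceptional
  have hmain : ∀ q b : ℕ, 0 < q → q ^ 16 ≤ z → b.Coprime q →
      (∀ χ : DirichletCharacter ℂ q, χ ≠ 1 → χ ^ 2 = 1 →
        lam ≤ ‖Lj z χ 0 (1 / (A * Real.log z))‖) →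
      c / (2 * (K : ℝ) ^ 3) / (q.totient : ℝ) ≤
      ∑ p ∈ (Ioc z (z ^ K)).filter (fun p => p.Prime ∧ p ≡ b [MOD q]), (1 : ℝ) / p := by
    intro q b hqpos hq hb hreal
    have : NeZero q := ⟨hqpos.ne'⟩
    have hlow := (h1 z q hz1 (h8 q hqpos hq)).1 b hb hreal
    have hup := h2 z q b hz2 hqpos (h8 q hqpos hq) hb
    have hphi : (0 : ℝ) < (q.totient : ℝ) := by
      exact_mod_cast Nat.totient_pos.2 hqpos
    have hL3 : (0 : ℝ) < (Real.log z) ^ 3 := by positivity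
    obtain ⟨S, hS⟩ : ∃ S : ℝ, S = ∑ p ∈ (Ioc z (z ^ K)).filter
      (fun p => p.Prime ∧ p ≡ b [MOD q]), (1 : ℝ) / p := ⟨_, rfl⟩
    rw [← hS] at hup ⊢
    have h5 : c * (Real.log z) ^ 3 / (q.totient : ℝ) ≤
        c / 2 * (Real.log z) ^ 3 / (q.totient : ℝ) + (K : ℝ) ^ 3 * (Real.log z) ^ 3 * S :=
      le_trans hlow hup
    have h6 : (c / 2 / (q.totient : ℝ)) * (Real.log z) ^ 3 ≤
        ((K : ℝ) ^ 3 * S) * (Real.log z) ^ 3 := by
      have e1 : c * (Real.log z) ^ 3 / (q.totient : ℝ) =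
          2 * ((c / 2 / (q.totient : ℝ)) * (Real.log z) ^ 3) := by
        field_simp
      have e2 : c / 2 * (Real.log z) ^ 3 / (q.totient : ℝ) =
          (c / 2 / (q.totient : ℝ)) * (Real.log z) ^ 3 := by
        field_simp
      rw [e1, e2] at h5
      nlinarith
    have h7 : c / 2 / (q.totient : ℝ) ≤ (K : ℝ) ^ 3 * S :=
      le_of_mul_le_mul_right h6 hL3
    have hK3 : (0 : ℝ) < (K : ℝ) ^ 3 := by positivity
    have e3 : c / (2 * (K : ℝ) ^ 3) / (q.totient : ℝ) =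
        (c / 2 / (q.totient : ℝ)) / (K : ℝ) ^ 3 := by
      field_simp
    rw [e3, div_le_iff₀ hK3]
    linarith
  by_cases hex : ∃ (q₀ : ℕ) (χ₀ : DirichletCharacter ℂ q₀), 0 < q₀ ∧ q₀ ^ 16 ≤ z ∧ χ₀ ≠ 1 ∧
      χ₀ ^ 2 = 1 ∧ ‖Lj z χ₀ 0 (1 / (A * Real.log z))‖ < lam
  · obtain ⟨q₀, χ₀, hq₀, hq₀z, hχ₀, hχ₀2, hL₀⟩ := hex
    have : NeZero q₀ := ⟨hq₀.ne'⟩
    have hc0 : χ₀.conductor ≠ 0 := χ₀.conductor_ne_zero
    have hc1 : χ₀.conductor ≠ 1 := fun h => hχ₀ (χ₀.eq_one_iff_conductor_eq_one.2 h)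
    have : NeZero χ₀.conductor := ⟨hc0⟩
    refine ⟨χ₀.conductor, by omega, ?_, fun q b hq hqz hndvd hb => hmain q b hq hqz hb ?_⟩
    · by_contra hcon
      push Not at hcon
      have h4 := h3 z hz3 χ₀.conductor (by omega) hcon χ₀.primitiveCharacter
        χ₀.primitiveCharacter_isPrimitive (1 / (A * Real.log z)) (by positivity) (by
          rw [div_le_one (by positivity)]
          nlinarith)
      have hq₀z' : q₀ ≤ z := (Nat.le_self_pow (by norm_num) _).trans hq₀z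
      have h5 : Lj z (DirichletCharacter.changeLevel χ₀.conductor_dvd_level χ₀.primitiveCharacter) 0
          (1 / (A * Real.log z)) = Lj z χ₀.primitiveCharacter 0 (1 / (A * Real.log z)) :=
        Lj_lift _ hq₀z' _ _
      rw [DirichletCharacter.changeLevel_primitiveCharacter] at h5
      rw [← h5] at h4
      linarith
    intro χ hχ hχ2
    by_contra hcon
    push Not at hcon
    have : NeZero q := ⟨hq.ne'⟩
    have hm0 : 0 < q₀ * q := Nat.mul_pos hq₀ hq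
    have : NeZero (q₀ * q) := ⟨hm0.ne'⟩
    have hm8 : (q₀ * q) ^ 8 ≤ z := by
      have e1 : ((q₀ * q) ^ 8) ^ 2 ≤ z ^ 2 := by
        calc ((q₀ * q) ^ 8) ^ 2 = q₀ ^ 16 * q ^ 16 := by rw [← pow_mul, mul_pow]
          _ ≤ z * z := Nat.mul_le_mul hq₀z hqz
          _ = z ^ 2 := by ring
      exact (Nat.pow_le_pow_iff_left (by norm_num)).1 e1
    have hmz : q₀ * q ≤ z := (Nat.le_self_pow (by norm_num) _).trans hm8
    have h3 := (h1 z (q₀ * q) hz1 hm8).2
      (DirichletCharacter.changeLevel (dvd_mul_right q₀ q) χ₀)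
      (DirichletCharacter.changeLevel (dvd_mul_left q q₀) χ)
      (by rw [← map_pow, hχ₀2, map_one]) (by rw [← map_pow, hχ2, map_one]) (by
        intro h
        have h4 : DirichletCharacter.changeLevel (dvd_mul_right q₀ q) χ₀ =
            DirichletCharacter.changeLevel (dvd_mul_left q q₀) χ := by
          have h5 : DirichletCharacter.changeLevel (dvd_mul_left q q₀) χ *
              DirichletCharacter.changeLevel (dvd_mul_left q q₀) χ = 1 := by
            rw [← map_mul, ← sq, hχ2, map_one]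
          exact mul_right_cancel (h.trans h5.symm)
        have h5 := congrArg DirichletCharacter.conductor h4
        rw [DirichletCharacter.conductor_changeLevel, DirichletCharacter.conductor_changeLevel] at h5
        exact hndvd (h5 ▸ χ.conductor_dvd_level))
    rw [Lj_lift _ hmz, Lj_lift _ hmz] at h3
    rcases h3 with h3 | h3
    · linarith
    · linarith
  · push Not at hex
    refine ⟨z + 2, by omega, ?_, fun q b hq hqz _ hb => hmain q b hq hqz hb ?_⟩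
    · have h5 := hz4 z hz5
      push_cast
      linarith
    intro χ hχ hχ2
    exact hex q χ hq hqz hχ hχ2

end Pool.Agent.R529.FT
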