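import Pool.Agent.TH892.SW.S2
import Pool.Agent.Y835.SC.Unc

/-!
The sieve upper bounds.
-/

set_option autoImplicit false

namespace Pool.Agent.R529.FT

open Finset
open Pool.Agent.W41 (JJ JJ_small)
open Pool.Agent.Y835.SC (V V_pos V_le_one big_card)

/-- one solution of `p ∣ a P + h` -/
theorem one_sol {p P : ℕ} (hp : p.Prime) (hP : ¬ p ∣ P) (h : ℕ) :
    ∃ a0 < p, ∀ a < p, (p ∣ a * P + h ↔ a = a0) := by
  have := Fact.mk hp
  have hP0 : (P : ZMod p) ≠ 0 := by rwa [Ne, ZMod.natCast_eq_zero_iff]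
  refine ⟨(-(h : ZMod p) * (P : ZMod p)⁻¹).val, ZMod.val_lt _, fun a ha => ?_⟩
  rw [← ZMod.natCast_eq_zero_iff]
  push_cast
  constructor
  · intro h1
    have h2 : (a : ZMod p) = -(h : ZMod p) * (P : ZMod p)⁻¹ := by
      field_simp
      linear_combination h1
    rw [← h2, ZMod.val_natCast, Nat.mod_eq_of_lt ha]
  · intro h1
    have h2 : (a : ZMod p) = -(h : ZMod p) * (P : ZMod p)⁻¹ := by
      rw [h1, ZMod.natCast_zmod_val]
    rw [h2]
    field_simp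
    ring

theorem V_up0 : ∃ C : ℝ, 0 < C ∧ ∀ y w : ℕ, 2 ≤ y → y ≤ w → ∀ D : ℕ, 1 ≤ D →
    ∑ p ∈ D.primeFactors.filter (fun p => y < p), (1 : ℝ) / p ≤ 1 →
    V ((Ioc y w).filter (fun p => p.Prime ∧ ¬ p ∣ D)) ≤ C * (Real.log y / Real.log w) := by
  obtain ⟨C, hC0, hC⟩ := Pool.Agent.Helper923.HMertens.mertens_ratio
  have hl2 : 0 < Real.log 2 := Real.log_pos (by norm_num)
  refine ⟨Real.exp (C / Real.log 2 + 1), Real.exp_pos _, fun y w hy hyw D hD h4 => ?_⟩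
  have hly : 0 < Real.log y := Real.log_pos (by exact_mod_cast (by omega : 1 < y))
  have hlw : 0 < Real.log w := Real.log_pos (by exact_mod_cast (by omega : 1 < w))
  have hlyw : Real.log 2 ≤ Real.log y := Real.log_le_log (by norm_num) (by exact_mod_cast hy)
  have h1 : V ((Ioc y w).filter (fun p => p.Prime ∧ ¬ p ∣ D)) ≤
      Real.exp (-∑ p ∈ (Ioc y w).filter (fun p => p.Prime ∧ ¬ p ∣ D), 1 / (p : ℝ)) := by
    rw [← sum_neg_distrib, Real.exp_sum]
    refine prod_le_prod (fun p hp => ?_) fun p hp => ?_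
    · exact (Pool.Agent.Y835.SC.f_nonneg (mem_filter.1 hp).2.1.two_le).le
    · have := Real.add_one_le_exp (-(1 / (p : ℝ)))
      linarith
  refine h1.trans ?_
  have h2 : ∑ p ∈ (Ioc y w).filter Nat.Prime, (1 : ℝ) / p ≤
      ∑ p ∈ (Ioc y w).filter (fun p => p.Prime ∧ ¬ p ∣ D), 1 / (p : ℝ) + 1 := by
    have h3 : (Ioc y w).filter Nat.Prime ⊆ (Ioc y w).filter (fun p => p.Prime ∧ ¬ p ∣ D) ∪
        D.primeFactors.filter (fun p => y < p) := by
      intro p hp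
      rw [mem_filter, mem_Ioc] at hp
      rw [mem_union, mem_filter, mem_filter, mem_Ioc, Nat.mem_primeFactors]
      by_cases h4 : p ∣ D
      · exact Or.inr ⟨⟨hp.2, h4, by omega⟩, hp.1.1⟩
      · exact Or.inl ⟨hp.1, hp.2, h4⟩
    calc ∑ p ∈ (Ioc y w).filter Nat.Prime, (1 : ℝ) / p ≤
        ∑ p ∈ (Ioc y w).filter (fun p => p.Prime ∧ ¬ p ∣ D) ∪
          D.primeFactors.filter (fun p => y < p), (1 : ℝ) / p :=
          sum_le_sum_of_subset_of_nonneg h3 fun _ _ _ => by positivity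
      _ ≤ ∑ p ∈ (Ioc y w).filter (fun p => p.Prime ∧ ¬ p ∣ D), (1 : ℝ) / p +
          ∑ p ∈ D.primeFactors.filter (fun p => y < p), (1 : ℝ) / p := by
          rw [← sum_union_inter]
          have : 0 ≤ ∑ p ∈ (Ioc y w).filter (fun p => p.Prime ∧ ¬ p ∣ D) ∩
            D.primeFactors.filter (fun p => y < p), (1 : ℝ) / p :=
            sum_nonneg fun _ _ => by positivity
          linarith
      _ ≤ _ := by linarith
  have h3 := (abs_le.1 (hC y w hy hyw)).1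
  have h4 : C / Real.log y ≤ C / Real.log 2 := div_le_div_of_nonneg_left hC0 hl2 hlyw
  have h5 : Real.log y / Real.log w = Real.exp (-(Real.log (Real.log w / Real.log y))) := by
    rw [Real.exp_neg, Real.exp_log (by positivity), inv_div]
  rw [h5, ← Real.exp_add]
  refine Real.exp_le_exp.2 ?_
  linarith

theorem V_up : ∃ C : ℝ, 0 < C ∧ ∀ y w : ℕ, 2 ≤ y → y ≤ w → ∀ D : ℕ, 1 ≤ D → D ≤ y ^ 2 →
    V ((Ioc y w).filter (fun p => p.Prime ∧ ¬ p ∣ D)) ≤ C * (Real.log y / Real.log w) := by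
  obtain ⟨C, hC0, hC⟩ := V_up0
  refine ⟨C, hC0, fun y w hy hyw D hD hDy => hC y w hy hyw D hD ?_⟩
  have hly : 0 < Real.log y := Real.log_pos (by exact_mod_cast (by omega : 1 < y))
  have hy0 : (0 : ℝ) < y := by exact_mod_cast (by omega : 0 < y)
  have h5 := big_card (q := D) (y := y) (by omega)
  have h6 : Real.log D ≤ 2 * Real.log y := by
    rw [← Real.log_rpow hy0, Real.rpow_two]
    exact Real.log_le_log (by exact_mod_cast hD) (by exact_mod_cast hDy)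
  have h7 : ((D.primeFactors.filter (fun p => y < p)).card : ℝ) ≤ 2 :=
    le_of_mul_le_mul_right (h5.trans h6) hly
  refine (sum_le_card_nsmul _ _ (1 / (y : ℝ)) fun p hp => ?_).trans ?_
  · exact one_div_le_one_div_of_le hy0 (by exact_mod_cast (mem_filter.1 hp).2.le)
  · rw [nsmul_eq_mul]
    have h8 : 1 / (y : ℝ) ≤ 1 / 2 := one_div_le_one_div_of_le (by norm_num) (by exact_mod_cast hy)
    have h9 : 0 ≤ 1 / (y : ℝ) := by positivity
    nlinarith

/-- the error term -/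
theorem err_le (C0 b K0 w y X : ℕ) (hK : K0 ≤ w) (hw : 5 ≤ w) (hy : 2 ≤ y)
    (hX : w ^ (4 * (C0 * b) + 6) ≤ X) (hyw : y ≤ w) :
    ((JJ w : ℝ) + 2) * ((w : ℝ) ^ (2 * (C0 * b)) * (K0 * (w : ℝ) ^ (2 * (C0 * b)))) ≤
      X * (Real.log y / Real.log w) ^ 2 := by
  have hw0 : (5 : ℝ) ≤ w := by exact_mod_cast hw
  have h1 : ((JJ w : ℝ) + 2) ≤ 2 * w := by exact_mod_cast JJ_small w (by omega)
  have h2 : (K0 : ℝ) ≤ w := by exact_mod_cast hK
  have hlw : 0 < Real.log w := Real.log_pos (by linarith)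
  have h3 : Real.log w ≤ w := (Real.log_le_sub_one_of_pos (by linarith)).trans (by linarith)
  have h4 : (1 / 2 : ℝ) ≤ Real.log y := by
    have h5 : Real.log 2 ≤ Real.log y := Real.log_le_log (by norm_num) (by exact_mod_cast hy)
    have := Real.log_two_gt_d9
    linarith
  have h6 : 1 / (2 * (w : ℝ)) ≤ Real.log y / Real.log w := by
    rw [div_le_div_iff₀ (by positivity) hlw]
    nlinarith
  have h7 : (w : ℝ) ^ (4 * (C0 * b) + 6) ≤ X := by exact_mod_cast hX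
  calc ((JJ w : ℝ) + 2) * ((w : ℝ) ^ (2 * (C0 * b)) * (K0 * (w : ℝ) ^ (2 * (C0 * b)))) ≤
      (2 * w) * ((w : ℝ) ^ (2 * (C0 * b)) * (w * (w : ℝ) ^ (2 * (C0 * b)))) := by
        gcongr
    _ = 2 * (w : ℝ) ^ (4 * (C0 * b) + 2) := by
        rw [show 4 * (C0 * b) + 2 = 2 * (C0 * b) + 2 * (C0 * b) + 2 by ring, pow_add, pow_add]
        ring
    _ ≤ (w : ℝ) ^ (4 * (C0 * b) + 6) * (1 / (2 * (w : ℝ))) ^ 2 := by
        have e6 : (w : ℝ) ^ (4 * (C0 * b) + 6) = (w : ℝ) ^ (4 * (C0 * b) + 2) * (w : ℝ) ^ 4 := by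
          rw [← pow_add]
        rw [e6]
        have h8 : (0 : ℝ) < (w : ℝ) ^ (4 * (C0 * b) + 2) := by positivity
        have h9 : (w : ℝ) ^ 4 * (1 / (2 * (w : ℝ))) ^ 2 = (w : ℝ) ^ 2 / 4 := by
          field_simp
          norm_num
        have h10 : (2 : ℝ) ≤ (w : ℝ) ^ 2 / 4 := by nlinarith
        rw [mul_assoc, h9]
        calc 2 * (w : ℝ) ^ (4 * (C0 * b) + 2) = (w : ℝ) ^ (4 * (C0 * b) + 2) * 2 := mul_comm _ _
          _ ≤ _ := mul_le_mul_of_nonneg_left h10 h8.le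
    _ ≤ _ := by
        refine mul_le_mul h7 (pow_le_pow_left₀ (by positivity) h6 2) (by positivity) (by positivity)

open Classical in
theorem pair_sieve : ∃ (E : ℕ) (C : ℝ) (w0 : ℕ), 1 ≤ E ∧ 0 < C ∧ ∀ y w X P h h' : ℕ, w0 ≤ w →
    2 ≤ y → y ≤ w → w ^ E ≤ X → (∀ p : ℕ, p.Prime → p ∣ P → p ≤ y) → h ≠ h' → h ≤ y ^ 2 →
    h' ≤ y ^ 2 →
    (((Icc 1 X).filter (fun m => ∀ p : ℕ, p.Prime → y < p → p ≤ w →
      ¬ p ∣ m * P + h ∧ ¬ p ∣ m * P + h')).card : ℝ) ≤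
      C * (X * (Real.log y / Real.log w) ^ 2) := by
  obtain ⟨C0, K0, hC0, hK0, HF⟩ := Pool.Agent.TH892.SW.fl_set 2
  obtain ⟨C, hC, HV⟩ := V_up
  refine ⟨4 * (C0 * C0) + 6, 2 * C ^ 2 + 1, max K0 5, by omega, by positivity, ?_⟩
  intro y w X P h h' hw hy hyw hX hP hne hh hh'
  have hwK : K0 ≤ w := (le_max_left _ _).trans hw
  have hw5 : 5 ≤ w := (le_max_right _ _).trans hw
  obtain ⟨D, hD⟩ : ∃ D : ℕ, D = max h h' - min h h' := ⟨_, rfl⟩
  have hD1 : 1 ≤ D := by omega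
  have hDy : D ≤ y ^ 2 := by omega
  obtain ⟨Q, hQ⟩ : ∃ Q : Finset ℕ, Q = (Ioc y w).filter (fun p => p.Prime ∧ ¬ p ∣ D) := ⟨_, rfl⟩
  have hQp : ∀ p ∈ Q, p.Prime ∧ y < p ∧ p ≤ w ∧ ¬ p ∣ D := fun p hp => by
    rw [hQ, mem_filter, mem_Ioc] at hp
    exact ⟨hp.2.1, hp.1.1, hp.1.2, hp.2.2⟩
  obtain ⟨R, hR⟩ : ∃ R : ℕ → ℕ → Prop, ∀ p a, R p a ↔ (p ∣ a * P + h ∨ p ∣ a * P + h') :=
    ⟨_, fun _ _ => Iff.rfl⟩
  have hcard : ∀ p ∈ Q, ((range p).filter (fun a => R p a)).card = 2 := by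
    intro p hp
    obtain ⟨hpp, hyp, hpw, hpD⟩ := hQp p hp
    have hpP : ¬ p ∣ P := fun hd => by
      have := hP p hpp hd
      omega
    obtain ⟨a0, ha0, h1⟩ := one_sol hpp hpP h
    obtain ⟨a1, ha1, h2⟩ := one_sol hpp hpP h'
    have hne' : a0 ≠ a1 := by
      intro he
      have h3 := (h1 a0 ha0).2 rfl
      have h4 := (h2 a0 ha0).2 he
      apply hpD
      rw [hD]
      rcases le_total h h' with h5 | h5
      · rw [max_eq_right h5, min_eq_left h5]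
        have h6 := (Nat.dvd_sub h4 h3)
        rwa [Nat.add_sub_add_left] at h6
      · rw [max_eq_left h5, min_eq_right h5]
        have h6 := (Nat.dvd_sub h3 h4)
        rwa [Nat.add_sub_add_left] at h6
    have h3 : (range p).filter (fun a => R p a) = {a0, a1} := by
      ext a
      rw [mem_filter, mem_range, mem_insert, mem_singleton, hR]
      constructor
      · rintro ⟨ha, h4 | h4⟩
        · exact Or.inl ((h1 a ha).1 h4)
        · exact Or.inr ((h2 a ha).1 h4)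
      · rintro (h4 | h4)
        · rw [h4]
          exact ⟨ha0, Or.inl ((h1 a0 ha0).2 rfl)⟩
        · rw [h4]
          exact ⟨ha1, Or.inr ((h2 a1 ha1).2 rfl)⟩
    rw [h3, card_pair hne']
  have h1 := HF C0 le_rfl w (by omega) X Q R (fun p hp => by
    obtain ⟨hpp, hyp, hpw, hpD⟩ := hQp p hp
    exact ⟨hpp, hpw, (hcard p hp).le⟩)
  have h2 := (abs_le.1 h1).2
  have h3 := err_le C0 C0 K0 w y X hwK hw5 hy hX hyw
  have h4 : ∏ p ∈ Q, (1 - (((range p).filter (fun a => R p a)).card : ℝ) / p) ≤ (V Q) ^ 2 := by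
    unfold V
    rw [← prod_pow]
    refine prod_le_prod (fun p hp => ?_) fun p hp => ?_
    · rw [hcard p hp]
      have h5 : (2 : ℝ) ≤ p := by exact_mod_cast (hQp p hp).1.two_le
      rw [sub_nonneg]
      push_cast
      rw [div_le_one (by linarith)]
      exact h5
    · rw [hcard p hp]
      push_cast
      have h5 : (0 : ℝ) ≤ (1 / (p : ℝ)) ^ 2 := by positivity
      have h6 : (2 : ℝ) / p = 2 * (1 / (p : ℝ)) := by ring
      rw [h6]
      nlinarith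
  have h5 : V Q ≤ C * (Real.log y / Real.log w) := by
    rw [hQ]; exact HV y w hy hyw D hD1 hDy
  have h6 : 0 < V Q := V_pos fun p hp => (hQp p hp).1
  have h7 : (V Q) ^ 2 ≤ C ^ 2 * (Real.log y / Real.log w) ^ 2 := by
    rw [← mul_pow]
    exact pow_le_pow_left₀ h6.le h5 2
  have h8 : (0 : ℝ) ≤ X := Nat.cast_nonneg X
  have h9 : (1 / 2 : ℝ) ^ C0 ≤ 1 := pow_le_one₀ (by norm_num) (by norm_num)
  obtain ⟨Z, hZ⟩ : ∃ Z : ℝ, Z = ∏ p ∈ Q, (1 - (((range p).filter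
    (fun a => R p a)).card : ℝ) / p) := ⟨_, rfl⟩
  have hZ0 : 0 ≤ Z := by
    rw [hZ]
    refine prod_nonneg fun p hp => ?_
    rw [hcard p hp, sub_nonneg]
    have h5 : (2 : ℝ) ≤ p := by exact_mod_cast (hQp p hp).1.two_le
    push_cast
    rw [div_le_one (by linarith)]
    exact h5
  rw [← hZ] at h2 h4
  have h10 : (((Icc 1 X).filter (fun m => ∀ p : ℕ, p.Prime → y < p → p ≤ w →
      ¬ p ∣ m * P + h ∧ ¬ p ∣ m * P + h')).card : ℝ) ≤
      (((Icc 1 X).filter (fun n => ∀ p ∈ Q, ¬ R p (n % p))).card : ℝ) := by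
    refine Nat.cast_le.2 (card_le_card fun m hm => ?_)
    rw [mem_filter] at hm ⊢
    refine ⟨hm.1, fun p hp hc => ?_⟩
    obtain ⟨hpp, hyp, hpw, hpD⟩ := hQp p hp
    have h11 := hm.2 p hpp hyp hpw
    rw [hR] at hc
    have h12 : ∀ g : ℕ, (p ∣ m % p * P + g ↔ p ∣ m * P + g) := by
      intro g
      have h13 : m % p * P + g ≡ m * P + g [MOD p] :=
        ((Nat.mod_modEq m p).mul_right P).add_right g
      exact ⟨fun h => (Nat.modEq_zero_iff_dvd.1 (h13.symm.trans (Nat.modEq_zero_iff_dvd.2 h))),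
        fun h => (Nat.modEq_zero_iff_dvd.1 (h13.trans (Nat.modEq_zero_iff_dvd.2 h)))⟩
    rcases hc with hc | hc
    · exact h11.1 ((h12 h).1 hc)
    · exact h11.2 ((h12 h').1 hc)
  have h11 : (X : ℝ) * Z ≤ X * (C ^ 2 * (Real.log y / Real.log w) ^ 2) :=
    mul_le_mul_of_nonneg_left (h4.trans h7) h8
  have h12 : (1 / 2 : ℝ) ^ C0 * (X * Z) ≤ 1 * (X * Z) :=
    mul_le_mul_of_nonneg_right h9 (by positivity)
  have h13 : (((Icc 1 X).filter (fun n => ∀ p ∈ Q, ¬ R p (n % p))).card : ℝ) ≤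
      2 * (X * Z) + X * (Real.log y / Real.log w) ^ 2 := by
    have h14 := h2
    linarith
  calc _ ≤ _ := h10
    _ ≤ _ := h13
    _ ≤ 2 * (X * (C ^ 2 * (Real.log y / Real.log w) ^ 2)) + X * (Real.log y / Real.log w) ^ 2 := by
        linarith
    _ = _ := by ring

end Pool.Agent.R529.FT
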